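import Pool.Agent.H289PL.Main

/-!
# The ordered tiling threshold is piecewise linear

For every ordered graph `H` the function `x ↦ f(x, H) = 1 - 1 / χ*_cr(x, H)` is piecewise linear
on `(0,1)`: the interval is a union of finitely many intervals on each of which the function is
affine.

Proof. Normalise the number of vertices of a bottlegraph with `k` parts to `1` and let `z` be the
size of its full parts, so that `χ_cr = 1 / z`. Disjoint copies of `H` in an interval labelling
are the same as integral weights on the monotone proper colourings of `H` with `k` colours, so
that the pairs `(x, z)` are, up to rational approximation, the points of the projection of a
polyhedron, and by Fourier-Motzkin elimination they are given by finitely many linear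
inequalities in `x` and `z`. Only `k ≤ |H| + 1` matters, since `z = 1 / |H|` is always possible
with `k = |H|`. The upper boundary of a finite union of planar polyhedra is affine on each interval
avoiding finitely many points, and away from these points the restriction to rational `z` does not
change the supremum, as a solution for `x' > x` gives bottlegraphs for `x`.
-/

namespace Pool.Agent.Results.MP_47c36b_co.TilingThreshold

open Pool.Agent.H289PL

theorem result {h : ℕ} (H : SimpleGraph (Fin h)) :
    PiecewiseLinear (fun x => threshold x H) :=
  main H

end Pool.Agent.Results.MP_47c36b_co.TilingThreshold
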